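import Pool.Agent.RMS.AllD

/-!
# PP with few coins that may influence everything, for machines with a stack or a tape, linear time

PP mode is a part of PSPACE mode. The function `fP` of `N` bits is in parity mode, and in PSPACE mode,
of automata that read the input once. But deterministic machines with `2 ^ (c N)` nodes,
`c = k ^ (- A k)`, and one unlimited stack or one unlimited tape, and time `k N`, have correlation at
most `2 ^ (- c N)` with it on a set of inputs; so it is not in PP mode with `c N` coins, although the
coins may influence everything. The same holds for tapes of any dimension and superlinear time. With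
`N + 1` coins every function is in PP mode.
-/

set_option autoImplicit false

namespace Pool.Agent.Results.MP_153864_lc.ExponentialCorrelation

open Pool.Agent.TKN.ONE (Bas Lay size)
open Pool.Agent.HPM (DecOs)
open Pool.Agent.PPL (fP)
open Pool.Agent.PPS (HardC)
open Pool.Agent.RMS (Mcu)
open Pool.Agent.UM (InPP InParity InPSPACE)

/-- **Theorem.** `Mcu d I τ b`: the sets decided by deterministic machines with time at most `τ` which read
at most `b` bits at once, and have at most `2 ^ b` nodes (pairs of a time and a state) and one unlimited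
stack with letters of any size (then the time is the number of the bits read), or at most `2 ^ y` nodes,
`y ^ d ≤ b`, and one unlimited tape of dimension `d` with letters of `g ≤ b` bits (then the time is the
number of the bits read plus `g` times the number of the moves of the head).
(0) The automata with the states `V` which read one given bit at each time `t < T` are machines of the
class `Mcu d` if they have at most `2 ^ b` nodes; every set in PP mode with `W` coins of the machines
`Mcu d` is in PSPACE mode with `W (W + 3) / 2` bits of the same machines.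
(1) For `M ≥ 2 ^ 56` the number `N = size M` of the bits is between `2 M` and `3 M`, there are bases `β`
and layouts `ly`, and for all of them the function `fP β ly` is in parity mode with `w` bits,
`2 ^ w ≤ N ^ 24`, and in PSPACE mode with `2 w` bits, of automata with at most `N ^ 24` states that read
the bit number `t` at time `t`, for `t = 0, …, N - 1`.
(2) There is a constant `A` such that for all `k ≥ 2` and `M ≥ k ^ (A k)`, with `c = 1 / k ^ (A k)`, the
function is hard, with parameter `c N`, for the machines with at most `2 ^ (c N)` nodes and an unlimited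
stack or tape of dimension `1`, and time `k N`.
(3) For `d ≥ 1` and `0 < ε < 1` there are `c > 0` and `M0` such that for `M ≥ M0` it is hard, with
parameter `N ^ (1 - ε)`, for the machines with an unlimited stack or tape of dimension `d` of the class
with `b = N ^ (1 - ε)` and time `c N log N / log log N`.
(4) All sets of inputs with `N > 0` bits are in PP mode with `N + 1` coins of machines with
`2 (N + 1)` nodes which read `N` bits. -/
theorem result :
    (∀ (I V : Type) (_ : Fintype V) (T : ℕ) (σ : Fin T → Fin 1 → I) (b : ℝ) (L : (I → Bool) → Prop),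
      1 ≤ b → (((T + 1) * Fintype.card V : ℕ) : ℝ) ≤ (2 : ℝ) ^ b → DecOs 1 I V T σ L →
      ∀ d : ℕ, Mcu d I T b L) ∧
    (∀ (d : ℕ) (I : Type) (τ b : ℝ) (W : ℕ) (L : (I → Bool) → Prop),
      InPP (Mcu d I τ b) W L → InPSPACE (Mcu d I τ b) (W * (W + 3) / 2) L) ∧
    (∀ M : ℕ, 2 ^ 56 ≤ M → (2 * M ≤ size M ∧ size M ≤ 3 * M) ∧ Nonempty (Bas M) ∧
      Nonempty (Lay M) ∧ ∀ (β : Bas M) (ly : Lay M),
      ∃ (V : Type) (_ : Fintype V) (w : ℕ), Fintype.card V ≤ size M ^ 24 ∧ 2 ^ w ≤ size M ^ 24 ∧
        InParity (DecOs 1 (Fin (size M)) V (size M) (fun t _ => t)) w (fun v => fP β ly v = true) ∧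
        InPSPACE (DecOs 1 (Fin (size M)) V (size M) (fun t _ => t)) (2 * w)
          (fun v => fP β ly v = true)) ∧
    (∃ A : ℕ, ∀ k M : ℕ, 2 ≤ k → k ^ (A * k) ≤ M → ∀ (β : Bas M) (ly : Lay M) (N : ℕ) (c : ℝ),
      N = size M → c = 1 / (k : ℝ) ^ (A * k) →
      HardC (Mcu 1 (Fin (size M)) (k * N) (c * N)) (c * N) (fun v => fP β ly v = true)) ∧
    (∀ (d : ℕ) (ε : ℝ), 1 ≤ d → 0 < ε → ε < 1 → ∃ c : ℝ, 0 < c ∧ ∃ M0 : ℕ, ∀ M ≥ M0,
      ∀ (β : Bas M) (ly : Lay M) (N : ℕ) (b : ℝ), N = size M → b = (N : ℝ) ^ (1 - ε) →
      HardC (Mcu d (Fin (size M)) (c * N * Real.log N / Real.log (Real.log N)) b) b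
        (fun v => fP β ly v = true)) ∧
    ∀ (d N : ℕ) (b : ℝ) (L : (Fin N → Bool) → Prop), 0 < N → 1 ≤ b →
      2 * ((N : ℝ) + 1) ≤ (2 : ℝ) ^ b → InPP (Mcu d (Fin N) N b) (N + 1) L :=
  ⟨fun _ _ _ _ _ _ _ hb hN h _ => Or.inl (Pool.Agent.PPS.mcs_of_decOs hb hN h),
    Pool.Agent.RMS.tax.1, fun M hM => ⟨⟨(Pool.Agent.TKN.ONE.t_SIZ M hM).1.1, by
      have h := (Pool.Agent.TKN.ONE.t_SIZ M hM).1.2
      omega⟩, (Pool.Agent.PPL.lay M hM).1, (Pool.Agent.PPL.lay M hM).2,
      fun β ly => Pool.Agent.PPL.upp M hM β ly⟩,
    Pool.Agent.RMS.tc1, Pool.Agent.RMS.tc2, Pool.Agent.RMS.tax.2⟩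

end Pool.Agent.Results.MP_153864_lc.ExponentialCorrelation
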