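import Pool.Agent.PPH.Low3
import Pool.Agent.PPH.UPL
import Pool.Agent.PPH.ROU
import Pool.Agent.NPP.THR

/-!
# PP is outside of BPP^PH, for circuits whose NOT gates change rarely

The circuits (`NCirc`) have input bits and witness bits; the NOT gates must not depend on the last `t` witness
bits (`NotsFree`). The alternation number of the NOT gates is at most `A` (`Alt`): if the input grows, step by step,
the outputs of the NOT gates change at most `A` times. The input consists of two graphs on `v` vertices. The function
`More`: the first graph has more cliques of size `k` than the second one has independent sets of size `k`.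

A circuit is used in the PP mode (`Maj`: the output is `true` for more than half of the values of the witness
bits) or in a mode of the polynomial hierarchy (`AnsQ`, `Qn`): the witness bits are quantified by blocks of
quantifiers THERE IS and FOR ALL.

The first part of the theorem is the upper bound for the PP mode. The second part is the lower bound for circuits
which are chosen at random (`o : Ω`, uniformly distributed; any number of coins) and make queries in rounds: there
are `n ≤ c * q` queries with the circuits `C o l`, the query number `l` belongs to the round number `l / q`; `a o x l`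
is the answer on the input `x`. The first `n` of the last witness bits of `C o l` are the answers of the earlier
rounds (`hist q l (a o x)`, the other entries are `false`); the other witness bits are the bits of a string which is
quantified by the at most `d` blocks `bs o l` (`RightQ`; the bit `u i` of the first kind is the bit number `ρ o l i` of
the string, the bit number `j` of the second kind is the bit number `j`, `false` beyond the end). The output is the
output of a circuit `D o` whose witness bits are the `n` answers (for the circuit without gates it is any Boolean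
function of the answers; for `n = 1` it can be the identity or the negation). For every input the output is right
with probability at least `1 / 2 + 1 / w`. (If `Ω` has one element: P^PH, no coins.)

The third part: the alternation number of `r` NOT gates is less than `2 ^ r`, and at most `r` if the NOT gates read
input bits (then they do not depend on the witness). The fourth part: every circuit is equal to one in which the NOT
gates read input bits, one for each of the `N` input bits (so the alternation number is at most `N`). The fifth part: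
with `1 + log2 (N + 1)` NOT gates which depend only on the input bits all circuits can be simulated, output by
output. The sixth part: if `(q + 1) ^ c` is larger than `N`, then `c` rounds of `q` queries without witness bits and
without NOT gates are as good as NOT gates.
-/

set_option autoImplicit false

namespace Pool.Agent.Results.MP_153864_lc.FewNegations

open Pool.Agent.NegLim Pool.Agent.NNDT Pool.Agent.NLM Pool.Agent.NPQ Pool.Agent.PPH

theorem result :
    (∀ v k : ℕ, 2 ≤ k → 2 ≤ v →
      ∃ C : NCirc (Edge v ⊕ Edge v) 0 (k * Nat.clog 2 v + 1), Lit C ∧ C.nots = 0 ∧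
        C.gates.length ≤ 100 * (v ^ 2 * k ^ 2) ∧ ∀ z, Maj C z ↔ More v k z) ∧
    (∀ ε : ℝ, 0 < ε → ε ≤ 1 → ∃ v₀ : ℕ, ∀ v ≥ v₀, ∀ (k m w N n q c σ A d : ℕ) (Ω : Type)
      [Finite Ω] [Nonempty Ω] (s t : Ω → Fin n → ℕ) (bs : Ω → Fin n → List (Bool × ℕ))
      (ρ : (o : Ω) → (l : Fin n) → Fin (s o l) → ℕ)
      (C : (o : Ω) → (l : Fin n) → NCirc (Edge v ⊕ Edge v) (s o l) (n + t o l))
      (D : Ω → NCirc (Edge v ⊕ Edge v) 0 n)
      (a : Ω → (Edge v ⊕ Edge v → Bool) → Fin n → Bool),
      v ^ 8 ≤ 2 ^ m → m ≤ w → k = m ^ 2 → N = v * (v - 1) / 2 → 1 ≤ q → n ≤ c * q → n ≤ w →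
      ((2 ^ σ * (A + 1) * (q + 1) ^ c * w ^ (4 * (d + 8)) : ℕ) : ℝ) ≤ (N : ℝ) ^ (1 - ε) →
      (∀ o l, (C o l).NotsFree ∧ Alt (C o l) A ∧ s o l ≤ σ ∧ (bs o l).length ≤ d ∧
        n + tot (bs o l) ≤ w ∧ RightQ q (C o l) (bs o l) (ρ o l) l (a o)) →
      (∀ o, (D o).NotsFree ∧ Alt (D o) A) →
      (∀ x, (w + 2) * Nat.card Ω ≤ 2 * w * Nat.card
        {o : Ω // More v k x ↔ outp (D o) x (fun i => i.elim0) (a o x) = true}) →
      ∃ o, 2 ^ (m / 2) < (D o).gates.length ∨ ∃ l, 2 ^ (m / 2) < (C o l).gates.length) ∧
    (∀ (E : Type) (s t : ℕ) (C : NCirc E s t), Alt C (2 ^ C.nots - 1) ∧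
      (NotsAtInputs C → C.NotsFree ∧ Alt C C.nots)) ∧
    (∀ (E : Type) [Fintype E] (s t : ℕ) (D : NCirc E s t), ∃ C : NCirc E s t,
      NotsAtInputs C ∧ C.nots = Fintype.card E ∧
      C.gates.length ≤ 2 * D.gates.length + Fintype.card E ∧
      ∀ x u w, outp C x u w = outp D x u w) ∧
    (∀ (E : Type) [Fintype E] (t r : ℕ), 1 ≤ r → Fintype.card E + 1 ≤ 2 ^ (r - 1) →
      ∀ D : NCirc E 0 t, ∃ C : NCirc E 0 t, C.nots = r ∧ C.NotsFree ∧
        C.gates.length ≤ 2 * D.gates.length + 12 * (Fintype.card E + r) ^ 3 ∧
        ∀ x u w, outp C x u w = outp D x u w) ∧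
    (∀ (E : Type) [Fintype E] (c q : ℕ), 1 ≤ q → Fintype.card E + 1 ≤ (q + 1) ^ c →
      ∃ (C : Fin (c * q) → NCirc E 0 (c * q + 0)) (a : (E → Bool) → Fin (c * q) → Bool),
        (∀ l, (C l).nots = 0 ∧ (C l).gates.length ≤ 12 * (Fintype.card E + 1) ^ 3 ∧
          RightQ q (C l) [] (fun i => i.elim0) l a) ∧
        ∀ (t : ℕ) (D₀ : NCirc E 0 t), ∃ D : NCirc E 0 (c * q + t), D.nots = 0 ∧
          D.gates.length ≤ 2 * D₀.gates.length + 12 * (Fintype.card E + 1) ^ 3 ∧
          ∀ x u w, outp D x u (Fin.append (a x) w) = outp D₀ x u w) :=
  ⟨UPL_thm, lower_alt, fun E s t C => ⟨ALX_thm.1 E s t C, fun h => ⟨ALX_thm.2.1 E s t C h,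
    ALX_thm.2.2 E s t C h⟩⟩, fun E _ s t D => INP_thm E s t D,
    fun E _ t r => Pool.Agent.NPP.THR_thm E t r, fun E _ c q => ROU_thm E c q⟩

end Pool.Agent.Results.MP_153864_lc.FewNegations
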