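import Pool.Agent.NCH.Fin
import Pool.Agent.NCH.UPC
import Pool.Agent.NCH.Rounds
import Pool.Agent.NPP.INC
import Pool.Agent.NPP.THR

/-!
# PSPACE is outside of P^CH, for circuits with few negations

The circuits (`NCirc`) have input bits and witness bits; the NOT gates must not depend on the last `t` witness
bits (`NotsFree`). The input consists of `2 ^ L` graphs on `v` vertices, one for every string of `L` bits. The
function `AltClq`: the `L` bits are quantified by a fixed string of quantifiers, and the graph has a clique of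
size `k`. Here `L = u + h * (2 * r)`, and the quantifiers are FOR ALL `u` bits and then, `h` times, THERE ARE `r`
bits, FOR ALL `r` bits.

A circuit is used in the PSPACE mode (`Pspace`: the witness bits are quantified one after the other by a fixed
string of quantifiers), in the PP mode (`Maj`) or with counting quantifiers (`accQ`, `Cnt`): for more than `θ` of
the strings of `b` bits; this contains THERE IS, FOR ALL and MORE THAN HALF.

The first part of the theorem is the upper bound for the PSPACE mode, the clique is given by `k ⌈log2 v⌉` more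
bits. The second part is the lower bound for queries in rounds: there are `n ≤ c * q` queries with the circuits
`C l`, the query number `l` belongs to the round number `l / q`; `a z l` is the answer on the input `z`. The first
`n` of the last witness bits of `C l` are the answers of the earlier rounds (`hist q l (a z)`, the other entries are
`false`), and with them the answer is given by at most `2 * h + 1` counting quantifiers (`RightC`): the first one
over the first `s` witness bits and `b` more bits, together at most `W`, or with the gap `2 ^ (-W)`; the others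
(`bs`) over at most `W` bits each. The output is the output of a circuit `D` whose witness bits are the `n` answers
(for the circuit without gates `D` is any Boolean function of the answers; for `n = 1` it can be the identity).
The third part: the PP mode is a PSPACE mode. The fourth part: with `1 + log2 (N + 1)` NOT gates which depend only
on the `N` input bits all circuits can be simulated, output by output. The fifth part: if `(q + 1) ^ c` is larger
than `N`, then `c` rounds of `q` queries without witness bits and without NOT gates are as good as NOT gates.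
-/

set_option autoImplicit false

namespace Pool.Agent.Results.MP_153864_lc.FewNegationsPSPACE

open Pool.Agent.NegLim Pool.Agent.NNDT Pool.Agent.NLM Pool.Agent.NPP Pool.Agent.NPQ
open Pool.Agent.NCH

theorem result :
    (∀ u h r v k : ℕ, 1 ≤ k → k ≤ v → 2 ≤ v →
      ∃ C : NCirc ((Fin (u + h * (2 * r)) → Bool) × Edge v) 0 (u + h * (2 * r) + k * Nat.clog 2 v),
        Lit C ∧ C.nots = 0 ∧
        C.gates.length ≤ 42 * (2 ^ (u + h * (2 * r)) * v ^ 2 * k ^ 2 * (u + h * (2 * r) + 1)) ∧
        ∀ z, Pspace C ((List.replicate u false ++ altq r h) ++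
          List.replicate (k * Nat.clog 2 v) true) (fun i => i.elim0) z ↔
            AltClq (List.replicate u false ++ altq r h) (u + h * (2 * r)) v k z) ∧
    (∀ ε : ℝ, 0 < ε → ε ≤ 1 → ∃ v₀ : ℕ, ∀ v ≥ v₀, ∀ (k u r h n q c W : ℕ) (s t b : Fin n → ℕ)
      (bs : Fin n → List (ℕ × ℕ))
      (C : (l : Fin n) → NCirc ((Fin (u + h * (2 * r)) → Bool) × Edge v) (s l) (n + t l))
      (D : NCirc ((Fin (u + h * (2 * r)) → Bool) × Edge v) 0 n)
      (a : ((Fin (u + h * (2 * r)) → Bool) × Edge v → Bool) → Fin n → Bool),
      k = ⌊(v : ℝ) ^ (ε / 4)⌋₊ → v ≤ 2 ^ r → 1 ≤ n → 1 ≤ q → n ≤ c * q →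
      (n : ℝ) * 2 ^ W ≤ (2 : ℝ) ^ ((v : ℝ) ^ (1 - ε)) →
      (∀ l, (C l).NotsFree) → D.NotsFree →
      (∀ l, 2 * (1 + (W + 3) * (2 * (q + 1) ^ c - q - 2)) * 2 ^ (s l + (C l).nots) ≤ 2 ^ u) →
      2 * (1 + (W + 3) * (2 * (q + 1) ^ c - q - 2)) * 2 ^ D.nots ≤ 2 ^ u →
      (∀ l, (bs l).length ≤ 2 * h ∧ ∀ p ∈ bs l, p.1 ≤ W) →
      (∀ l, RightC q W (C l) (b l) (bs l) l a) →
      (∀ z, AltClq (List.replicate u false ++ altq r h) (u + h * (2 * r)) v k z ↔
        outp D z (fun i => i.elim0) (a z) = true) →
      (2 : ℝ) ^ ((v : ℝ) ^ (ε / 10)) ≤ D.gates.length ∨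
        ∃ l, (2 : ℝ) ^ ((v : ℝ) ^ (ε / 10)) ≤ (C l).gates.length) ∧
    (∀ (E : Type) (s t : ℕ) (C : NCirc E s t), C.NotsFree →
      ∃ (C' : NCirc E s ((s + t) * (s + t + 3) / 2)) (qs : List Bool) (ρ : Fin s → ℕ),
        C'.NotsFree ∧ C'.nots = C.nots ∧ C'.gates.length = C.gates.length + 2 ∧
        qs.length = (s + t) * (s + t + 3) / 2 ∧ ∀ x, Pspace C' qs ρ x ↔ Maj C x) ∧
    (∀ (E : Type) [Fintype E] (t r : ℕ), 1 ≤ r → Fintype.card E + 1 ≤ 2 ^ (r - 1) →
      ∀ D : NCirc E 0 t, ∃ C : NCirc E 0 t, C.nots = r ∧ C.NotsFree ∧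
        C.gates.length ≤ 2 * D.gates.length + 12 * (Fintype.card E + r) ^ 3 ∧
        ∀ x u w, outp C x u w = outp D x u w) ∧
    (∀ (E : Type) [Fintype E] (c q : ℕ), 1 ≤ q → Fintype.card E + 1 ≤ (q + 1) ^ c →
      ∃ (C : Fin (c * q) → NCirc E 0 (c * q + 0)) (a : (E → Bool) → Fin (c * q) → Bool),
        (∀ l, (C l).nots = 0 ∧ (C l).gates.length ≤ 12 * (Fintype.card E + 1) ^ 3 ∧
          ∀ W, RightC q W (C l) 0 [] l a) ∧
        ∀ (t : ℕ) (D₀ : NCirc E 0 t), ∃ D : NCirc E 0 (c * q + t), D.nots = 0 ∧
          D.gates.length ≤ 2 * D₀.gates.length + 12 * (Fintype.card E + 1) ^ 3 ∧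
          ∀ x u w, outp D x u (Fin.append (a x) w) = outp D₀ x u w) := by
  exact ⟨fun u h r v k hk hkv hv => UPC_thm _ _ v k (len_altq u r h) hk hkv hv,
    lowerC, INC_thm, fun E _ t r => THR_thm E t r, fun E _ c q => rounds_upperC E c q⟩

end Pool.Agent.Results.MP_153864_lc.FewNegationsPSPACE
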