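import Pool.Agent.TKB.All

/-!
# PP is exponentially outside the Boolean closure of NP, for programs of superlinear length

One explicit function `FB` of `N = sizeB M` bits. It is decided in PP mode by ONE automaton with at
most `N ^ 24` states, which reads at most `(log N) ^ 2` coins and then the `N` bits of the input, once
from left to right. But for all `k` and `q`, with `c = 2 ^ (- ((k + 1) (q + 1)) ^ B)`, it is no Boolean
function `De (A 1, …, A q)` of `q` answers of nondeterministic branching programs (even with one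
unlimited stack) or AND/OR circuits with fewer than `2 ^ (c N)` nodes, in which each accepted input has
an accepting run (proof tree) with at most `k N` tests outside of a set of at most `c N` variables.
-/

set_option autoImplicit false

namespace Pool.Agent.Results.MP_153864_lc.PPBeyondBooleanNP

open Pool.Agent.TKB (BasB LayB sizeB mbU FB PPA NoBool)

/-- **Theorem.** (1) For `M ≥ 2 ^ 56` the number `N = sizeB M` of the bits is between `2 M` and `3 M`,
there are bases `β` and layouts `ly`, and for all of them `FB β ly` is decided in PP mode (`PPA`) by one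
automaton with at most `N ^ 24` states that reads `w ≤ (log2 N) ^ 2` coins and then the `N` bits of the
input, each once, from left to right: the value is `1` iff more than half of the `2 ^ w` coin strings
are accepted.
(2) There is a constant `B` such that for all `q`, all `k ≥ 1` and `M ≥ 2 ^ (((k + 1) (q + 1)) ^ B)`, with
`c = 1 / 2 ^ (((k + 1) (q + 1)) ^ B)`, for all bases and layouts and `s ≤ c N`: `FB β ly` is no Boolean
function `De (A 1, …, A q)` of `q` properties, each of which is decided by a nondeterministic program with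
one stack or by a fork program with at most `s` tests on each edge and fewer than `2 ^ (c N)` nodes such
that each accepted input has an accepting run (tree) with at most `k N` tests of variables outside a set
of at most `s` variables (`NoBool`).
(2') There is a constant `a > 0` such that for all `ε > 0`, all large `M`, `q ≤ (log N) ^ a` and
`s ≤ N ^ (1 - ε)` the bound `T ≤ N (log N) ^ a` in place of `k N` and fewer than `2 ^ (N ^ (1 - ε))` nodes are
not enough either. -/
theorem result :
    (∀ M : ℕ, 2 ^ 56 ≤ M → (2 * M ≤ sizeB M ∧ sizeB M ≤ 3 * M) ∧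
      Nonempty (BasB mbU M) ∧ Nonempty (LayB mbU M) ∧ ∀ (β : BasB mbU M) (ly : LayB mbU M),
      ∃ (V : Type) (_ : Fintype V) (w : ℕ), Fintype.card V ≤ sizeB M ^ 24 ∧
        w ≤ Nat.log 2 (sizeB M) ^ 2 ∧ PPA (sizeB M) w V (FB β ly)) ∧
    (∃ B : ℕ, ∀ q k M : ℕ, 1 ≤ k → 2 ^ (((k + 1) * (q + 1)) ^ B) ≤ M →
      ∀ (β : BasB mbU M) (ly : LayB mbU M) (N s : ℕ) (c : ℝ), N = sizeB M →
      c = 1 / 2 ^ (((k + 1) * (q + 1)) ^ B) → (s : ℝ) ≤ c * N →
        NoBool q (sizeB M) s (k * N) (c * N) (FB β ly)) ∧
    ∃ a : ℝ, 0 < a ∧ ∀ ε : ℝ, 0 < ε → ∃ M0 : ℕ, ∀ M ≥ M0, ∀ (β : BasB mbU M) (ly : LayB mbU M)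
      (N q s T : ℕ), N = sizeB M → (q : ℝ) ≤ Real.log N ^ a → (s : ℝ) ≤ (N : ℝ) ^ (1 - ε) →
        (T : ℝ) ≤ N * Real.log N ^ a → NoBool q (sizeB M) s T ((N : ℝ) ^ (1 - ε)) (FB β ly) := by
  refine ⟨fun M hM => ?_, ?_, ?_⟩
  · obtain ⟨a, b, d, e⟩ := Pool.Agent.TKB.mainU M hM
    exact ⟨a, b, d, fun β ly => (e β ly).1⟩
  · obtain ⟨B, h⟩ := Pool.Agent.TKB.lowU Pool.Agent.TKB.lwb
    refine ⟨B, ?_⟩
    rintro q k M hk hM β ly N s c rfl rfl hs
    exact h q k M hk hM β ly s hs
  · obtain ⟨a, ha, h⟩ := Pool.Agent.TKB.lowS Pool.Agent.TKB.lwb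
    refine ⟨a, ha, fun ε hε => ?_⟩
    obtain ⟨M0, h⟩ := h ε hε
    refine ⟨max M0 (2 ^ 56), ?_⟩
    rintro M hM β ly N q s T rfl hq hs hT
    obtain ⟨hs1, hs2⟩ := (Pool.Agent.TKB.mainU M ((le_max_right _ _).trans hM)).1
    exact h M ((le_max_left _ _).trans hM) hs2 (by omega) β ly q s T hq hs hT

end Pool.Agent.Results.MP_153864_lc.PPBeyondBooleanNP
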